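import Pool.Agent.H52.AL.BMb

/-!
Module BM of MP_c9ef16_gt: microscopic part of the band lemma.
-/

open Topology Set Filter Real

namespace Pool.Agent.H52.AL

open Pool.Agent.H96.AL

/-- the final estimate -/
theorem bm_fin (s l e f c t K : ℝ) (hs : 0 < s) (hc : 0 < c) (hc1 : c ≤ 1 / 100) (hK : 1 ≤ K)
    (hlK : l ≤ K * s) (hA : K ^ 2 * s ≤ c / 1000)
    (h1 : (2 * t - 1) * s ^ 2 - 4 * c * s * l - 10 * (K * s) ^ 4 ≤ f ^ 2 - e ^ 2)
    (h2 : f ^ 2 - e ^ 2 ≤ (2 * t - 1) * s ^ 2 + 10 * c * s * l + 131 * (K * s) ^ 4) :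
    |(s ^ 2 + f ^ 2 - e ^ 2) / (2 * s) - t * s| ≤ 1000 * K ^ 2 * c * s := by
  have hσ4 : (K * s) ^ 4 ≤ c / 1000 * s ^ 2 := by
    have h3 : (K * s) ^ 4 = (K ^ 2 * s) * (K ^ 2 * s) * s ^ 2 := by ring
    rw [h3]
    refine mul_le_mul_of_nonneg_right ?_ (sq_nonneg s)
    have h4 : 0 ≤ K ^ 2 * s := by positivity
    nlinarith
  have hl2 : c * s * l ≤ c * s * (K * s) := mul_le_mul_of_nonneg_left hlK (by positivity)
  have hK2 : K ≤ K ^ 2 := by nlinarith
  have h5 : c * s * (K * s) ≤ K ^ 2 * c * s ^ 2 := by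
    have : K * (c * s ^ 2) ≤ K ^ 2 * (c * s ^ 2) := mul_le_mul_of_nonneg_right hK2 (by positivity)
    nlinarith
  have h6 : c / 1000 * s ^ 2 ≤ K ^ 2 * c * s ^ 2 / 1000 := by
    have h7 : 1 ≤ K ^ 2 := by nlinarith
    have : 1 * (c * s ^ 2) ≤ K ^ 2 * (c * s ^ 2) := mul_le_mul_of_nonneg_right h7 (by positivity)
    nlinarith
  have e1 : (s ^ 2 + f ^ 2 - e ^ 2) / (2 * s) - t * s =
      (f ^ 2 - e ^ 2 - (2 * t - 1) * s ^ 2) / (2 * s) := by
    field_simp
    ring
  have h8 : 0 ≤ K ^ 2 * c * s ^ 2 := by positivity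
  rw [e1, abs_div, abs_of_pos (by linarith : (0 : ℝ) < 2 * s), div_le_iff₀ (by linarith), abs_le]
  constructor
  · nlinarith
  · nlinarith

theorem bm_s0 (s K κ c : ℝ) (hs : 0 < s) (hK : 1 ≤ K) (hκ : 0 < κ)
    (h : s * (1000 * (1 + K) ^ 2 * (1 + κ)) ≤ c) :
    K ^ 2 * s ≤ c / 1000 ∧ κ * s ≤ c / 1000 ∧ K * s ≤ K ^ 2 * s := by
  refine ⟨?_, ?_, mul_le_mul_of_nonneg_right (by nlinarith) hs.le⟩
  · have h1 : 0 ≤ s * (1000 * (1 + 2 * K + (1 + K) ^ 2 * κ)) := by positivity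
    have h2 : s * (1000 * (1 + K) ^ 2 * (1 + κ)) =
      s * (1000 * (1 + 2 * K + (1 + K) ^ 2 * κ)) + 1000 * (K ^ 2 * s) := by ring
    linarith
  · have h1 : 0 ≤ s * (1000 * ((1 + K) ^ 2 + (2 * K + K ^ 2) * κ)) := by positivity
    have h2 : s * (1000 * (1 + K) ^ 2 * (1 + κ)) =
      s * (1000 * ((1 + K) ^ 2 + (2 * K + K ^ 2) * κ)) + 1000 * (κ * s) := by ring
    linarith

theorem bm_beta (s κ c : ℝ) (hs : 0 < s) (hc : 0 < c) (h : κ * s ≤ c / 1000) :
    κ * s ^ 2 + c * s ≤ 2 * c * s ∧ κ * (2 * s) ^ 2 + 2 * c * s ≤ 3 * c * s := by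
  have h1 : κ * s * s ≤ c / 1000 * s := mul_le_mul_of_nonneg_right h hs.le
  have h2 : 0 < c * s := mul_pos hc hs
  constructor <;> nlinarith

theorem bm_ne (hEL : T_EL) (s l c : ℝ) (hs : 0 < s) (hs1 : s ≤ 1 / 10) (hl : 0 < l)
    (hl1 : l ≤ 1 / 10) (hc : 0 < c) (hc1 : c ≤ 1 / 100)
    (h : cosh l * cosh s - 2 * c * s * sinh l ≤ 1) : False := by
  obtain ⟨p1, -⟩ := bm_prod hEL l s hl.le hl1 hs.le hs1
  obtain ⟨-, -, -, l4⟩ := bm_small hEL l hl.le hl1
  have h1 : l + l ^ 3 ≤ 2 * l := by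
    have : l ^ 2 ≤ 1 := by nlinarith
    nlinarith
  have h2 : 2 * c * s * sinh l ≤ 2 * c * s * (2 * l) :=
    mul_le_mul_of_nonneg_left (by linarith) (by positivity)
  have h3 : c * (s * l) ≤ 1 / 100 * (s * l) := mul_le_mul_of_nonneg_right hc1 (by positivity)
  nlinarith [sq_nonneg (s - l), mul_pos hs hl, sq_nonneg s]

theorem bm_mul (A B S T C β : ℝ) (hS : 0 ≤ S) (h : T * C ≤ β) (h1 : A - S * T * C ≤ B) :
    A - β * S ≤ B := by
  have h2 : S * (T * C) ≤ S * β := mul_le_mul_of_nonneg_left h hS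
  have h3 : S * T * C = S * (T * C) := by ring
  have h4 : S * β = β * S := by ring
  linarith

/-- BM: microscopic part of the band lemma -/
theorem bm (hHH : T_HH) (hHG : T_HG) (hQQ : T_QQ) (hEL : T_EL) : T_BM := by
  intro X _ D R c hS hR hc hc1
  have hD : 1 ≤ D := hS.one_le
  have hK0 : 0 < D / R := div_pos (by linarith) hR
  have hκ0 : 0 < cosh D / R := div_pos (cosh_pos D) hR
  refine ⟨c / (1000 * (1 + D / R) ^ 2 * (1 + cosh D / R)), by positivity, ?_⟩
  intro z q q' q₂ y w u s lam t hs hs0 _ _ ht0 ht1 hzy hzq hzq' hqq' hqq₂ hzq₂ hqy hq'y hq₂y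
    hzwy _ hl1 hl2 hquw hqu
  have hK1 : 1 ≤ D / R := (one_le_div hR).2 (hzy.trans (hS.diam z y))
  set K := D / R with hK
  set κ := cosh D / R with hκ
  have hs1 : s * (1000 * (1 + K) ^ 2 * (1 + κ)) ≤ c :=
    (le_div_iff₀ (by positivity)).1 hs0
  obtain ⟨hA, hB, hAB⟩ := bm_s0 s K κ c hs hK1 hκ0 hs1
  have hKs : K * s ≤ c / 1000 := hAB.trans hA
  have hsK : s ≤ K * s := le_mul_of_one_le_left hs.le hK1
  obtain ⟨hβ1, hβ2⟩ := bm_beta s κ c hs hc hB
  have hσ : K * s ≤ 1 / 1000 := by linarith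
  have hlp : 0 < dist z w := by
    by_contra hcon
    push Not at hcon
    have : K * dist z w ≤ 0 := mul_nonpos_of_nonneg_of_nonpos hK0.le hcon
    linarith
  have hd1 : dist q w ≤ s + dist z w := by
    have := dist_triangle q z w
    rw [dist_comm q z, hzq] at this
    exact this
  have hdσ : dist q w ≤ 2 * (K * s) := by linarith
  have he0 : 0 ≤ dist q u := dist_nonneg
  have hed : dist q u ≤ dist q w := by
    rw [hqu]
    exact mul_le_of_le_one_left dist_nonneg (by linarith)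
  have hf1 : dist z u ≤ s + dist q u := by
    have := dist_triangle z q u
    rw [hzq] at this
    exact this
  have hfσ : dist z u ≤ 3 * (K * s) := by linarith
  have hg1 : dist w q₂ ≤ 3 * (K * s) := by
    have := dist_triangle w z q₂
    rw [dist_comm w z, hzq₂] at this
    linarith
  have hzney : z ≠ y := by
    intro h
    rw [h, dist_self] at hzy
    linarith
  have hzneq : z ≠ q := by
    intro h
    rw [h, dist_self] at hzq
    linarith
  have hzneq' : z ≠ q' := by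
    intro h
    rw [h, dist_self] at hzq'
    linarith
  have hzneq₂ : z ≠ q₂ := by
    intro h
    rw [h, dist_self] at hzq₂
    linarith
  have hqneq₂ : q ≠ q₂ := by
    intro h
    rw [h, dist_self] at hqq₂
    linarith
  have haD : dist z y ≤ D := hS.diam z y
  have hslp : 0 ≤ sinh (dist z w) := (sinh_pos_iff.2 hlp).le
  -- the comparison cosines
  have c1 : sinh s * cc (dist z y) s (dist y q) ≤ 2 * c * s := by
    refine bm_cc_mul _ s _ _ hs ((bm_cc hEL D R (dist z y) (dist y q) s (c * s) hR hzy haD hs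
      (by linarith) (by rw [dist_comm y q]; exact hqy)).trans hβ1)
  have c2 : sinh s * cc (dist z y) s (dist q' y) ≤ 2 * c * s := by
    refine bm_cc_mul _ s _ _ hs ((bm_cc hEL D R (dist z y) (dist q' y) s (c * s) hR hzy haD hs
      (by linarith) hq'y).trans hβ1)
  have c3 : sinh (2 * s) * cc (dist z y) (2 * s) (dist y q₂) ≤ 3 * c * s := by
    refine bm_cc_mul _ (2 * s) _ _ (by linarith) ((bm_cc hEL D R (dist z y) (dist y q₂) (2 * s)
      (2 * c * s) hR hzy haD (by linarith) (by linarith)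
      (by rw [dist_comm y q₂]; exact hq₂y)).trans hβ2)
  -- the four comparisons
  have k1 := hHH X hS.cb q z y w hzwy hzneq hzney
  rw [hzq] at k1
  have k1' : cosh (dist z w) * cosh s - 2 * c * s * sinh (dist z w) ≤ cosh (dist w q) :=
    bm_mul _ _ _ _ _ _ hslp c1 k1
  have k2 := hHG X hS.cb q z q' w y (by
    show dist q z + dist z q' = dist q q'
    rw [dist_comm q z, hzq, hzq', hqq']
    ring) hzwy hzneq' hzney
  rw [dist_comm q z, hzq, hzq', bm_cc_comm] at k2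
  have k2' : cosh (dist q w) ≤ cosh s * cosh (dist z w) + 2 * c * s * sinh (dist z w) := by
    rw [dist_comm q w]
    have h2 := mul_le_mul_of_nonneg_left c2 hslp
    have h3 : sinh s * sinh (dist z w) * cc (dist z y) s (dist q' y) =
      sinh (dist z w) * (sinh s * cc (dist z y) s (dist q' y)) := by ring
    have h4 : sinh (dist z w) * (2 * c * s) = 2 * c * s * sinh (dist z w) := by ring
    rw [h3] at k2
    rw [h4] at h2
    exact k2.trans (add_le_add le_rfl h2)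
  have k3 := hHH X hS.cb q₂ z y w hzwy hzneq₂ hzney
  rw [hzq₂] at k3
  have k3' : cosh (dist z w) * cosh (2 * s) - 3 * c * s * sinh (dist z w) ≤
      cosh (dist w q₂) := bm_mul _ _ _ _ _ _ hslp c3 k3
  -- q and w are different
  have hdp : 0 < dist q w := by
    by_contra hcon
    have h0 : dist q w = 0 := le_antisymm (not_lt.1 hcon) dist_nonneg
    rw [dist_comm w q, h0, cosh_zero] at k1'
    exact bm_ne hEL s (dist z w) c hs (by linarith) hlp (by linarith) hc hc1 k1'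
  have hqnew : q ≠ w := dist_pos.1 hdp
  have k4 := hHG X hS.cb z q q₂ u w (by
    show dist z q + dist q q₂ = dist z q₂
    rw [hzq, hqq₂, hzq₂]
    ring) hquw hqneq₂ hqnew
  rw [hzq, hqq₂, dist_comm u z, dist_comm q₂ w] at k4
  have k5 := hQQ X hS.cb z q w u (1 - t) (K * s) ⟨by linarith, by linarith⟩ hqu (by
    have : dist q u + dist u w = dist q w := hquw
    rw [hqu] at this
    linarith) (by rw [hzq]; exact hsK) hl1
  rw [hzq] at k5
  -- the estimates
  have hdU := bm_dU hEL s (dist z w) (dist q w) c (K * s) hs.le hlp.le dist_nonneg hsK hl1 hdσ hσ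
    hc.le hc1 k2'
  have hfL := bm_fL hEL s (dist z w) (dist q w) (dist q u) (dist z u) c t (K * s) hs.le hlp.le
    dist_nonneg (by positivity) hdσ hσ hc.le ht0 ht1 hqu hdU (by
      have : (1 - (1 - t)) * s ^ 2 + (1 - t) * dist z w ^ 2 -
        cosh (K * s) * (1 - t) * (1 - (1 - t)) * dist q w ^ 2 =
        t * s ^ 2 + (1 - t) * dist z w ^ 2 - cosh (K * s) * (1 - t) * t * dist q w ^ 2 := by ring
      rw [← this]
      exact k5)
  have hN := bm_N hEL s (dist z w) (dist q w) (dist w q₂) c (K * s) hs.le hlp.le dist_nonneg hsK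
    hl1 hdσ hσ hc.le hc1 hdU k3'
  have hX := bm_X hEL s (dist q w) (dist q u) (dist w q₂) t (K * s) hs hdp dist_nonneg hsK hdσ
    hg1 hσ ht0 ht1 hqu
  have hfU := bm_fU hEL s (dist z w) (dist q w) (dist q u) (dist z u) c t (K * s) _ _ hs.le hlp.le
    dist_nonneg dist_nonneg hfσ hsK hdσ hσ hc.le ht0 ht1 hqu hN hX k4
  refine ⟨bm_fin s (dist z w) (dist q u) (dist z u) c t K hs hc hc1 hK1 hl1 hA hfL hfU, ?_⟩
  have h4 : 4 * K * s = 4 * (K * s) := by ring
  rw [h4]
  linarith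

end Pool.Agent.H52.AL
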