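import Pool.Agent.H96.AL.Targets3

/-!
Module BM of MP_c9ef16_gt, first part: elementary estimates.
-/

open Topology Set Filter Real

namespace Pool.Agent.H52.AL

open Pool.Agent.H96.AL

/-- bounds of cosh and sinh for small arguments -/
theorem bm_small (hEL : T_EL) (x : ℝ) (h0 : 0 ≤ x) (h1 : x ≤ 1 / 10) :
    1 + x ^ 2 / 2 ≤ cosh x ∧ cosh x ≤ 1 + x ^ 2 / 2 + x ^ 4 / 2 ∧ x ≤ sinh x ∧
      sinh x ≤ x + x ^ 3 := by
  obtain ⟨e1, e2, e3, e4, -⟩ := hEL x x h0 le_rfl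
  have hx2 : x ^ 2 ≤ 1 / 100 := by nlinarith
  have hx0 : 0 ≤ x ^ 2 := sq_nonneg x
  have hC : cosh x ≤ 1 + x ^ 2 / 2 + x ^ 4 / 2 := by
    by_contra hcon
    push Not at hcon
    have h3 : (1 + x ^ 2 / 2 + x ^ 4 / 2) * (1 - x ^ 2 / 2) < cosh x * (1 - x ^ 2 / 2) :=
      mul_lt_mul_of_pos_right hcon (by linarith)
    have h4 : 0 ≤ x ^ 4 * (1 / 4 - x ^ 2 / 4) := mul_nonneg (by positivity) (by linarith)
    nlinarith
  refine ⟨by linarith, hC, e1, e2.trans ?_⟩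
  have h5 : x * cosh x ≤ x * (1 + x ^ 2 / 2 + x ^ 4 / 2) := mul_le_mul_of_nonneg_left hC h0
  have h6 : 0 ≤ x ^ 3 * (1 / 2 - x ^ 2 / 2) := mul_nonneg (by positivity) (by linarith)
  nlinarith

/-- tangent line of cosh -/
theorem bm_tangent (a b : ℝ) : cosh a + (b - a) * sinh a ≤ cosh b := by
  rw [cosh_eq, cosh_eq, sinh_eq]
  have h1 : exp b = exp a * exp (b - a) := by rw [← exp_add]; congr 1; ring
  have h2 : exp (-b) = exp (-a) * exp (a - b) := by rw [← exp_add]; congr 1; ring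
  have h3 := add_one_le_exp (b - a)
  have h4 := add_one_le_exp (a - b)
  have h5 : exp a * (b - a + 1) ≤ exp a * exp (b - a) :=
    mul_le_mul_of_nonneg_left h3 (exp_pos a).le
  have h6 : exp (-a) * (a - b + 1) ≤ exp (-a) * exp (a - b) :=
    mul_le_mul_of_nonneg_left h4 (exp_pos (-a)).le
  rw [h1, h2]
  nlinarith

/-- upper bound of the comparison cosine at an almost orthogonal direction -/
theorem bm_cc (hEL : T_EL) (D R a b r c' : ℝ) (hR : 0 < R) (hRa : R ≤ a) (haD : a ≤ D)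
    (hr : 0 < r) (hr1 : r ≤ 1 / 10) (hb : |b - a| ≤ c') :
    (cosh a * cosh r - cosh b) / sinh a ≤ cosh D / R * r ^ 2 + c' := by
  have ha : 0 < a := hR.trans_le hRa
  have hsa : 0 < sinh a := sinh_pos_iff.2 ha
  obtain ⟨-, s2, -, -⟩ := bm_small hEL r hr.le hr1
  have e1 := (hEL a a ha.le le_rfl).1
  rw [div_le_iff₀ hsa]
  have h1 := bm_tangent a b
  have h2 : (a - b) * sinh a ≤ c' * sinh a :=
    mul_le_mul_of_nonneg_right (by linarith [(abs_le.1 hb).1]) hsa.le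
  have h3 : cosh r - 1 ≤ r ^ 2 := by
    have : 0 ≤ r ^ 2 * (1 / 2 - r ^ 2 / 2) := mul_nonneg (by positivity) (by nlinarith)
    nlinarith
  have h4 : cosh a * (cosh r - 1) ≤ cosh D * r ^ 2 := by
    have : cosh a ≤ cosh D := cosh_le_cosh.2 (by
      rw [abs_of_pos ha, abs_of_pos (ha.trans_le haD)]; exact haD)
    exact mul_le_mul this h3 (by linarith [one_le_cosh r]) (cosh_pos D).le
  have h5 : cosh D * r ^ 2 ≤ cosh D / R * r ^ 2 * sinh a := by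
    have h6 : 1 ≤ sinh a / R := by rw [le_div_iff₀ hR]; linarith
    calc cosh D * r ^ 2 = cosh D * r ^ 2 * 1 := by ring
      _ ≤ cosh D * r ^ 2 * (sinh a / R) :=
        mul_le_mul_of_nonneg_left h6 (mul_nonneg (cosh_pos D).le (by positivity))
      _ = cosh D / R * r ^ 2 * sinh a := by ring
  nlinarith

theorem bm_cc_mul (a r b β : ℝ) (hr : 0 < r)
    (h : (cosh a * cosh r - cosh b) / sinh a ≤ β) : sinh r * cc a r b ≤ β := by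
  have hsr : 0 < sinh r := sinh_pos_iff.2 hr
  refine le_trans (le_of_eq ?_) h
  unfold cc
  field_simp

theorem bm_cc_comm (a b x : ℝ) : cc a b x = cc b a x := by
  unfold cc
  rw [mul_comm (cosh a), mul_comm (sinh a)]

/-- product of two cosh -/
theorem bm_prod (hEL : T_EL) (x y : ℝ) (hx : 0 ≤ x) (hx1 : x ≤ 1 / 10) (hy : 0 ≤ y)
    (hy1 : y ≤ 1 / 10) : 1 + (x ^ 2 + y ^ 2) / 2 ≤ cosh x * cosh y ∧
      cosh x * cosh y ≤ 1 + (x ^ 2 + y ^ 2) / 2 + (x ^ 4 + y ^ 4) / 2 + x ^ 2 * y ^ 2 := by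
  obtain ⟨a1, a2, -, -⟩ := bm_small hEL x hx hx1
  obtain ⟨b1, b2, -, -⟩ := bm_small hEL y hy hy1
  have hx2 : x ^ 2 ≤ 1 := by nlinarith
  have hy2 : y ^ 2 ≤ 1 := by nlinarith
  have hx0 : 0 ≤ x ^ 2 := sq_nonneg x
  have hy0 : 0 ≤ y ^ 2 := sq_nonneg y
  constructor
  · have h1 : (1 + x ^ 2 / 2) * (1 + y ^ 2 / 2) ≤ cosh x * cosh y :=
      mul_le_mul a1 b1 (by positivity) (cosh_pos x).le
    have h2 : 0 ≤ x ^ 2 * y ^ 2 := mul_nonneg hx0 hy0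
    nlinarith
  · have h1 : cosh x * cosh y ≤ (1 + x ^ 2 / 2 + x ^ 4 / 2) * (1 + y ^ 2 / 2 + y ^ 4 / 2) :=
      mul_le_mul a2 b2 (cosh_pos y).le (by positivity)
    have h2 : x ^ 2 / 2 + x ^ 4 / 2 ≤ x ^ 2 := by nlinarith [mul_nonneg hx0 (sub_nonneg.2 hx2)]
    have h3 : y ^ 2 / 2 + y ^ 4 / 2 ≤ y ^ 2 := by nlinarith [mul_nonneg hy0 (sub_nonneg.2 hy2)]
    have h4 : (x ^ 2 / 2 + x ^ 4 / 2) * (y ^ 2 / 2 + y ^ 4 / 2) ≤ x ^ 2 * y ^ 2 :=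
      mul_le_mul h2 h3 (by positivity) hx0
    nlinarith

/-- the upper bound of `|qw|` -/
theorem bm_dU (hEL : T_EL) (s l d c σ : ℝ) (hs : 0 ≤ s) (hl : 0 ≤ l) (hd : 0 ≤ d)
    (hsσ : s ≤ σ) (hlσ : l ≤ σ) (hdσ : d ≤ 2 * σ) (hσ : σ ≤ 1 / 1000) (hc : 0 ≤ c)
    (hc1 : c ≤ 1 / 100) (h : cosh d ≤ cosh s * cosh l + 2 * c * s * sinh l) :
    d ^ 2 ≤ s ^ 2 + l ^ 2 + 4 * c * s * l + 6 * σ ^ 4 := by
  obtain ⟨d1, -, -, -⟩ := bm_small hEL d hd (by linarith)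
  obtain ⟨-, -, -, l4⟩ := bm_small hEL l hl (by linarith)
  obtain ⟨-, p2⟩ := bm_prod hEL s l hs (by linarith) hl (by linarith)
  have h1 : s ^ 4 ≤ σ ^ 4 := pow_le_pow_left₀ hs hsσ 4
  have h2 : l ^ 4 ≤ σ ^ 4 := pow_le_pow_left₀ hl hlσ 4
  have h3 : s ^ 2 * l ^ 2 ≤ σ ^ 2 * σ ^ 2 :=
    mul_le_mul (pow_le_pow_left₀ hs hsσ 2) (pow_le_pow_left₀ hl hlσ 2) (by positivity)
      (by positivity)
  have h4 : s * l ^ 3 ≤ σ * σ ^ 3 :=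
    mul_le_mul hsσ (pow_le_pow_left₀ hl hlσ 3) (by positivity) (hs.trans hsσ)
  have h5 : 2 * c * s * sinh l ≤ 2 * c * s * (l + l ^ 3) :=
    mul_le_mul_of_nonneg_left l4 (by positivity)
  have h6 : 2 * c * (s * l ^ 3) ≤ 1 * (s * l ^ 3) :=
    mul_le_mul_of_nonneg_right (by linarith) (by positivity)
  nlinarith

/-- the lower bound of `|zu|² - |qu|²` -/
theorem bm_fL (hEL : T_EL) (s l d e f c t σ : ℝ) (hs : 0 ≤ s) (hl : 0 ≤ l) (hd : 0 ≤ d)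
    (hσ0 : 0 ≤ σ) (hdσ : d ≤ 2 * σ) (hσ : σ ≤ 1 / 1000) (hc : 0 ≤ c) (ht0 : 0 ≤ t)
    (ht1 : t ≤ 1 / 2) (he : e = (1 - t) * d)
    (hdU : d ^ 2 ≤ s ^ 2 + l ^ 2 + 4 * c * s * l + 6 * σ ^ 4)
    (h : t * s ^ 2 + (1 - t) * l ^ 2 - cosh σ * (1 - t) * t * d ^ 2 ≤ f ^ 2) :
    (2 * t - 1) * s ^ 2 - 4 * c * s * l - 10 * σ ^ 4 ≤ f ^ 2 - e ^ 2 := by
  obtain ⟨-, c2, -, -⟩ := bm_small hEL σ hσ0 (by linarith)
  have hσ2 : σ ^ 2 ≤ 1 := by nlinarith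
  have hc' : cosh σ ≤ 1 + σ ^ 2 := by
    nlinarith [mul_nonneg (sq_nonneg σ) (sub_nonneg.2 hσ2)]
  have hp : 0 ≤ (1 - t) * t := mul_nonneg (by linarith) ht0
  have hp1 : (1 - t) * t ≤ 1 := by nlinarith
  have hd2 : d ^ 2 ≤ 4 * σ ^ 2 := by nlinarith
  have h1 : cosh σ * ((1 - t) * t * d ^ 2) ≤ (1 + σ ^ 2) * ((1 - t) * t * d ^ 2) :=
    mul_le_mul_of_nonneg_right hc' (by positivity)
  have h2 : (1 - t) * t * (σ ^ 2 * d ^ 2) ≤ 1 * (σ ^ 2 * (4 * σ ^ 2)) :=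
    mul_le_mul hp1 (mul_le_mul_of_nonneg_left hd2 (sq_nonneg σ)) (by positivity) zero_le_one
  have h3 : (1 - t) * d ^ 2 ≤ (1 - t) * (s ^ 2 + l ^ 2 + 4 * c * s * l + 6 * σ ^ 4) :=
    mul_le_mul_of_nonneg_left hdU (by linarith)
  have h4 : 0 ≤ t * (4 * c * s * l + 6 * σ ^ 4) := by positivity
  have h5 : cosh σ * (1 - t) * t * d ^ 2 = cosh σ * ((1 - t) * t * d ^ 2) := by ring
  rw [h5] at h
  subst he
  nlinarith

/-- the bound of the numerator of the comparison cosine at `q` -/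
theorem bm_N (hEL : T_EL) (s l d g c σ : ℝ) (hs : 0 ≤ s) (hl : 0 ≤ l) (hd : 0 ≤ d)
    (hsσ : s ≤ σ) (hlσ : l ≤ σ) (hdσ : d ≤ 2 * σ) (hσ : σ ≤ 1 / 1000) (hc : 0 ≤ c)
    (hc1 : c ≤ 1 / 100) (hdU : d ^ 2 ≤ s ^ 2 + l ^ 2 + 4 * c * s * l + 6 * σ ^ 4)
    (h : cosh l * cosh (2 * s) - 3 * c * s * sinh l ≤ cosh g) :
    cosh s * cosh d - cosh g ≤ - s ^ 2 + 5 * c * s * l + 17 * σ ^ 4 := by
  obtain ⟨-, -, -, l4⟩ := bm_small hEL l hl (by linarith)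
  obtain ⟨-, p2⟩ := bm_prod hEL s d hs (by linarith) hd (by linarith)
  obtain ⟨p3, -⟩ := bm_prod hEL l (2 * s) hl (by linarith) (by linarith) (by linarith)
  have h1 : s ^ 4 ≤ σ ^ 4 := pow_le_pow_left₀ hs hsσ 4
  have h2 : d ^ 4 ≤ (2 * σ) ^ 4 := pow_le_pow_left₀ hd hdσ 4
  have h3 : s ^ 2 * d ^ 2 ≤ σ ^ 2 * (2 * σ) ^ 2 :=
    mul_le_mul (pow_le_pow_left₀ hs hsσ 2) (pow_le_pow_left₀ hd hdσ 2) (by positivity)
      (by positivity)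
  have h4 : s * l ^ 3 ≤ σ * σ ^ 3 :=
    mul_le_mul hsσ (pow_le_pow_left₀ hl hlσ 3) (by positivity) (hs.trans hsσ)
  have h5 : 3 * c * s * sinh l ≤ 3 * c * s * (l + l ^ 3) :=
    mul_le_mul_of_nonneg_left l4 (by positivity)
  have h6 : 3 * c * (s * l ^ 3) ≤ 1 * (s * l ^ 3) :=
    mul_le_mul_of_nonneg_right (by linarith) (by positivity)
  nlinarith

end Pool.Agent.H52.AL
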