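import Pool.Agent.H52.AL.BMa

/-!
Module BM of MP_c9ef16_gt, second part: elementary estimates.
-/

open Topology Set Filter Real

namespace Pool.Agent.H52.AL

open Pool.Agent.H96.AL

/-- the hinge term -/
theorem bm_X (hEL : T_EL) (s d e g t σ : ℝ) (hs : 0 < s) (hd : 0 < d) (hg : 0 ≤ g)
    (hsσ : s ≤ σ) (hdσ : d ≤ 2 * σ) (hgσ : g ≤ 3 * σ) (hσ : σ ≤ 1 / 1000)
    (ht0 : 0 ≤ t) (ht1 : t ≤ 1 / 2) (he : e = (1 - t) * d) :
    sinh s * sinh e * cc s d g ≤ (1 - t) * (cosh s * cosh d - cosh g) + 36 * σ ^ 4 := by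
  have he0 : 0 ≤ e := by rw [he]; exact mul_nonneg (by linarith) hd.le
  have hed : e ≤ d := by rw [he]; nlinarith
  obtain ⟨-, -, d3, d4⟩ := bm_small hEL d hd.le (by linarith)
  obtain ⟨-, -, e3, e4⟩ := bm_small hEL e he0 (by linarith)
  obtain ⟨-, g2, -, -⟩ := bm_small hEL g hg (by linarith)
  obtain ⟨p1, p2⟩ := bm_prod hEL s d hs.le (by linarith) hd.le (by linarith)
  have hss : 0 < sinh s := sinh_pos_iff.2 hs
  have hsd : 0 < sinh d := sinh_pos_iff.2 hd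
  set N := cosh s * cosh d - cosh g with hN
  have hX : sinh s * sinh e * cc s d g = sinh e / sinh d * N := by
    unfold cc
    rw [hN]
    field_simp
  have hσ0 : 0 ≤ σ := hs.le.trans hsσ
  have hd2 : d ^ 2 ≤ 4 * σ ^ 2 := by nlinarith
  have hs2 : s ^ 2 ≤ σ ^ 2 := pow_le_pow_left₀ hs.le hsσ 2
  have hg2 : g ^ 2 ≤ 9 * σ ^ 2 := by nlinarith
  have hσ2 : σ ^ 2 ≤ 1 / 1000000 := by nlinarith
  have hN1 : N ≤ 9 * σ ^ 2 := by
    have h1 : s ^ 4 ≤ σ ^ 4 := pow_le_pow_left₀ hs.le hsσ 4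
    have h2 : d ^ 4 ≤ (2 * σ) ^ 4 := pow_le_pow_left₀ hd.le hdσ 4
    have h3 : s ^ 2 * d ^ 2 ≤ σ ^ 2 * (2 * σ) ^ 2 :=
      mul_le_mul hs2 (pow_le_pow_left₀ hd.le hdσ 2) (by positivity) (by positivity)
    have h4 : σ ^ 4 ≤ σ ^ 2 * (1 / 1000000) := by
      have := mul_le_mul_of_nonneg_left hσ2 (sq_nonneg σ)
      nlinarith
    have h5 := one_le_cosh g
    nlinarith
  have hN2 : - (9 * σ ^ 2) ≤ N := by
    have h1 : cosh g - 1 ≤ g ^ 2 := by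
      have : g ^ 2 ≤ 1 := by nlinarith
      nlinarith [mul_nonneg (sq_nonneg g) (sub_nonneg.2 this)]
    have h2 : 1 ≤ cosh s * cosh d := by nlinarith [sq_nonneg s, sq_nonneg d]
    rw [hN]
    linarith
  have hNa : |N| ≤ 9 * σ ^ 2 := abs_le.2 ⟨hN2, hN1⟩
  have hr1 : sinh e / sinh d ≤ (1 - t) + d ^ 2 := by
    rw [div_le_iff₀ hsd]
    have h1 : e ^ 2 ≤ d ^ 2 := pow_le_pow_left₀ he0 hed 2
    have h2 : e + e ^ 3 ≤ (1 - t) * d + d ^ 2 * d := by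
      have h3 : e ^ 3 ≤ d ^ 3 := pow_le_pow_left₀ he0 hed 3
      rw [← he]
      nlinarith
    have h4 : ((1 - t) + d ^ 2) * d ≤ ((1 - t) + d ^ 2) * sinh d :=
      mul_le_mul_of_nonneg_left d3 (by nlinarith [sq_nonneg d])
    nlinarith
  have hr2 : (1 - t) - d ^ 2 ≤ sinh e / sinh d := by
    rw [le_div_iff₀ hsd]
    have hd21 : d ^ 2 ≤ 1 / 4 := by nlinarith
    have h4 : ((1 - t) - d ^ 2) * sinh d ≤ ((1 - t) - d ^ 2) * (d + d ^ 3) :=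
      mul_le_mul_of_nonneg_left d4 (by linarith)
    have h5 : 0 ≤ d ^ 3 * (t + d ^ 2) := by positivity
    have h6 : ((1 - t) - d ^ 2) * (d + d ^ 3) ≤ (1 - t) * d := by nlinarith
    rw [← he] at h6
    linarith
  have hr : |sinh e / sinh d - (1 - t)| ≤ 4 * σ ^ 2 := by
    rw [abs_le]
    constructor <;> linarith
  have hmul : (sinh e / sinh d - (1 - t)) * N ≤ 4 * σ ^ 2 * (9 * σ ^ 2) := by
    calc (sinh e / sinh d - (1 - t)) * N ≤ |(sinh e / sinh d - (1 - t)) * N| := le_abs_self _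
      _ = |sinh e / sinh d - (1 - t)| * |N| := abs_mul _ _
      _ ≤ 4 * σ ^ 2 * (9 * σ ^ 2) := mul_le_mul hr hNa (abs_nonneg _) (by positivity)
  rw [hX]
  nlinarith

/-- the upper bound of `|zu|² - |qu|²` -/
theorem bm_fU (hEL : T_EL) (s l d e f c t σ N X : ℝ) (hs : 0 ≤ s) (hl : 0 ≤ l) (hd : 0 ≤ d)
    (hf : 0 ≤ f) (hfσ : f ≤ 3 * σ)
    (hsσ : s ≤ σ) (hdσ : d ≤ 2 * σ) (hσ : σ ≤ 1 / 1000) (hc : 0 ≤ c)
    (ht0 : 0 ≤ t) (ht1 : t ≤ 1 / 2) (he : e = (1 - t) * d)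
    (hN : N ≤ - s ^ 2 + 5 * c * s * l + 17 * σ ^ 4)
    (hX : X ≤ (1 - t) * N + 36 * σ ^ 4)
    (h : cosh f ≤ cosh s * cosh e + X) :
    f ^ 2 - e ^ 2 ≤ (2 * t - 1) * s ^ 2 + 10 * c * s * l + 131 * σ ^ 4 := by
  have he0 : 0 ≤ e := by rw [he]; exact mul_nonneg (by linarith) hd
  have hed : e ≤ d := by rw [he]; nlinarith
  have heσ : e ≤ 2 * σ := hed.trans hdσ
  obtain ⟨f1, -, -, -⟩ := bm_small hEL f hf (by linarith)
  obtain ⟨-, p2⟩ := bm_prod hEL s e hs (by linarith) he0 (by linarith)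
  have h1 : s ^ 4 ≤ σ ^ 4 := pow_le_pow_left₀ hs hsσ 4
  have h2 : e ^ 4 ≤ (2 * σ) ^ 4 := pow_le_pow_left₀ he0 heσ 4
  have h3 : s ^ 2 * e ^ 2 ≤ σ ^ 2 * (2 * σ) ^ 2 :=
    mul_le_mul (pow_le_pow_left₀ hs hsσ 2) (pow_le_pow_left₀ he0 heσ 2) (by positivity)
      (by positivity)
  have h4 : (1 - t) * N ≤ (1 - t) * (- s ^ 2 + 5 * c * s * l + 17 * σ ^ 4) :=
    mul_le_mul_of_nonneg_left hN (by linarith)
  have h5 : 0 ≤ t * (5 * c * s * l + 17 * σ ^ 4) := by positivity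
  nlinarith

end Pool.Agent.H52.AL
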